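import Pool.Agent.Z695.MT.Fin

/-!
# The order of vanishing of the Mazur-Tate elements at the powers of five for the prime twists
# of `X_0(20)`

For a prime `b` congruent to `13` or `17` modulo `20` let `E_b : y² = x³ - 11 b x² - b² x`
(conductor `20 b²`; for `b = 13` this is the curve `E13` of conductor `3380`). The only prime of
split multiplicative reduction is `5`. For every exponent `e ≥ 1` the ring `R` is `ℤ` and the
Mazur-Tate element at `5^e` has order of vanishing exactly one. So the conjecture holds for `E_b`
if and only if `E_b(ℚ)` has rank zero, and it fails for `E_b` at every power of five as soon as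
there is one rational point with `y ≠ 0`.
-/

set_option autoImplicit false

namespace Pool.Agent.Results.MP_b13df7_nt.PrimeTwistsAllPowersOfFive

open Pool.Agent.W97.MT Pool.Agent.W97.V20 Pool.Agent.Z695.MT
open Pool.Agent.Y695 (ED)

/-- **Negated form of Q1 for a family of curves and all exponents.** -/
theorem result :
    (∀ b : ℕ, b.Prime → (b % 20 = 13 ∨ b % 20 = 17) →
      -- the equation `y² = x³ - 11 b x² - b² x` is a global minimal equation
      IsGloballyMinimal (ED b) ∧
      -- and `5` is the only prime of split multiplicative reduction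
      (∀ p : ℕ, p.Prime → (IsSplit (ED b) p ↔ p = 5)) ∧
      -- for every exponent `e ≥ 1` the smallest ring is `ℤ` and the Mazur-Tate element at `5^e`
      -- has order of vanishing exactly one
      (∀ e : ℕ, 1 ≤ e → OrderOne (ED b) (5 ^ e)) ∧
      -- the conjecture holds for this curve if and only if the rank is zero
      (OrderConjectureFor (ED b) ↔ RankZero (ED b)) ∧
      -- if and only if there is no rational point with `y ≠ 0`
      (RankZero (ED b) ↔ ¬ HasPoint b)) ∧
    -- it fails for these primes
    (∀ b ∈ small, b.Prime ∧ (b % 20 = 13 ∨ b % 20 = 17) ∧ ¬ RankZero (ED b) ∧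
      ¬ OrderConjectureFor (ED b)) ∧
    -- so the conjecture is false
    ¬ OrderConjecture := by
  have hfail : ∀ b ∈ small, b.Prime ∧ (b % 20 = 13 ∨ b % 20 = 17) ∧ ¬ RankZero (ED b) ∧
      ¬ OrderConjectureFor (ED b) := by
    intro b hb
    obtain ⟨h, hp⟩ := small_point b hb
    have hr : ¬ RankZero (ED b) := by
      intro h0
      exact (rank_zero_iff h).1 h0 hp
    exact ⟨h.prime, h.mod, hr, fun hc => hr ((conj_iff h).1 hc)⟩
  refine ⟨?_, hfail, ?_⟩
  · intro b hb hm
    have h : Bp b := ⟨hb, hm⟩
    refine ⟨h.min, ?_, ?_, conj_iff h, rank_zero_iff h⟩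
    · intro p hp
      constructor
      · exact h.split_only hp
      · rintro rfl
        exact h.split
    · intro e he
      exact main h he
  · intro hc
    obtain ⟨hp, hm, -, h2⟩ := hfail 13 (by decide)
    have h : Bp 13 := ⟨hp, hm⟩
    exact h2 (hc (ED (13 : ℕ)) h.min)

end Pool.Agent.Results.MP_b13df7_nt.PrimeTwistsAllPowersOfFive
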